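import Pool.Agent.N751.FR.Stm2
import Pool.Agent.N400.FR.Sim

set_option autoImplicit false

/-!
# FR/ONE: the zeros of one polynomial (helper271, after FR/SIM of helper400)
-/

namespace Pool.Agent.N271.FROne

open NumberField IsDedekindDomain Module Polynomial Height
open Pool.Agent.N753.DR Pool.Agent.N415.DRVK Pool.Agent.N751.FR Pool.Agent.N400.FRSim

/-- **FR/ONE** the zeros of one polynomial -/
theorem t : StmOne := by
  classical
  intro K _ _ r _ E hE P hPm hPi hPd S κ hκ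
  obtain ⟨C1, hC1⟩ := hE S P hPm hPi hPd (κ / 2) (by positivity)
  obtain ⟨C3, hC30, hC3⟩ : ∃ C : ℝ, 0 ≤ C ∧ ∀ (M : Type) [Field M] [NumberField M] [Algebra K M]
      (x : M), logHeight₁ (aeval x P) ≤ P.natDegree * logHeight₁ x + finrank K M * C :=
    ht_eval P.natDegree P le_rfl
  refine ⟨2 * |C1| + r * C3, ?_⟩
  intro M _ _ _ x hM hx hxE hPx
  have hZ : ∃ Z : Finset (HeightOneSpectrum (𝓞 M)), ∀ w, w ∈ Z ↔ Near S P x w := by
    refine ⟨(zeros_finite hPx).toFinset.filter (fun w => Near S P x w), ?_⟩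
    intro w
    rw [Finset.mem_filter, Set.Finite.mem_toFinset]
    exact ⟨fun h => h.2, fun h => ⟨h.2.2, h⟩⟩
  obtain ⟨Z, hZ⟩ := hZ
  have h1 := hC1 M x hM hx hxE Z fun w h => (hZ w).2 h
  have h2 : ∑ w ∈ Z, (if w.valuation M (aeval x P) = WithZero.exp (-1 : ℤ) then lN w
      else 2 * lN w) ≤ logHeight₁ (aeval x P) := by
    refine wts_le hPx Z _ fun w hw => ?_
    have h3 := ((hZ w).1 hw).2.2
    split_ifs with h4
    · exact log_abv w h3 hPx
    · exact log_abv2 w h3 h4 hPx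
  have h3 := hC3 M x
  rw [hM] at h3
  have hh0 : 0 ≤ logHeight₁ x := zero_le_logHeight₁ x
  have hC1a := le_abs_self C1
  have hC1b := abs_nonneg C1
  have hr0 : (0 : ℝ) ≤ r * C3 := by positivity
  have hexp : WithZero.exp (-1 : ℤ) < (1 : WithZero (Multiplicative ℤ)) := by
    rw [← WithZero.exp_zero, WithZero.exp_lt_exp]
    norm_num
  obtain ⟨a, ha⟩ : ∃ a : ℝ, a =
    ∑ w ∈ Z.filter (fun w => w.valuation M (aeval x P) = WithZero.exp (-1 : ℤ)), lN w := ⟨_, rfl⟩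
  obtain ⟨b, hb⟩ : ∃ b : ℝ, b =
    ∑ w ∈ Z.filter (fun w => ¬ w.valuation M (aeval x P) = WithZero.exp (-1 : ℤ)), lN w := ⟨_, rfl⟩
  have hb0 : 0 ≤ b := by
    rw [hb]
    exact Finset.sum_nonneg fun w _ => lN_nonneg w
  have h4 : a + b = ∑ w ∈ Z, lN w := by
    rw [ha, hb]
    exact Finset.sum_filter_add_sum_filter_not _ _ _
  have h5 : a + 2 * b = ∑ w ∈ Z, (if w.valuation M (aeval x P) = WithZero.exp (-1 : ℤ) then lN w
      else 2 * lN w) := by
    rw [Finset.sum_ite, ha, hb, ← Finset.mul_sum]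
  rw [← h4] at h1
  rw [← h5] at h2
  refine ⟨Z.filter (fun w => w.valuation M (aeval x P) = WithZero.exp (-1 : ℤ)),
    Z.filter (fun w => ¬ w.valuation M (aeval x P) = WithZero.exp (-1 : ℤ)), ?_, ?_, ?_, ?_, ?_⟩
  · intro w
    rw [Finset.mem_filter, hZ]
    constructor
    · rintro ⟨g1, g2⟩
      exact ⟨g1.1, g1.2.1, g2⟩
    · rintro ⟨g1, g2, g3⟩
      refine ⟨⟨g1, g2, ?_⟩, g3⟩
      rw [g3]
      exact hexp
  · intro w
    rw [Finset.mem_filter, hZ]
    constructor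
    · rintro ⟨g1, g2⟩
      exact ⟨g1, fun h => g2 h.2.2⟩
    · rintro ⟨g1, g2⟩
      exact ⟨g1, fun h => g2 ⟨g1.1, g1.2.1, h⟩⟩
  · rw [← ha]
    have e1 : ((P.natDegree : ℝ) - κ) * logHeight₁ x =
        2 * (((P.natDegree : ℝ) - κ / 2) * logHeight₁ x) - P.natDegree * logHeight₁ x := by ring
    rw [e1]
    linarith
  · rw [← ha]
    linarith
  · rw [← hb]
    have e1 : ((P.natDegree : ℝ) - κ / 2) * logHeight₁ x =
        P.natDegree * logHeight₁ x - κ / 2 * logHeight₁ x := by ring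
    rw [e1] at h1
    have e2 : 0 ≤ κ / 2 * logHeight₁ x := by positivity
    have e3 : κ * logHeight₁ x = κ / 2 * logHeight₁ x + κ / 2 * logHeight₁ x := by ring
    linarith

end Pool.Agent.N271.FROne
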